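import Pool.Agent.K35c.PD.Tight

set_option autoImplicit false

/-!
# Domination in the case of equality
-/

namespace Pool.Agent.K35c.PD

open Finset
open Pool.Agent.N188.FC
open scoped Classical

variable {α : Type*} [DecidableEq α]

theorem iso_one {S : Finset α} {K : Finset (Finset α)} (hK : ∀ A ∈ K, A ⊆ S) {x : α} (hx : x ∈ S)
    (hdeg : 2 ^ S.card ≤ 6 * (K.filter (fun A => x ∈ A)).card) (D : Finset α → Prop)
    (hD : ∀ A, D A → ¬ Up (fun B => insert x B ∈ K) A) :
    (1 : ℝ) * cnt (S.erase x) D ≤ edges (S.erase x) D := by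
  have h1 : IsoAt S K (2 * (1 / 3) / (1 - 1 / 3)) x := by
    refine isoAt_of_measure (by norm_num) le_rfl hx ?_
    have h2 : 2 ^ S.card ≤ 6 * (covered S K x).card :=
      hdeg.trans (Nat.mul_le_mul_left 6 (deg_le_covered hK x))
    have h3 : ((2 : ℝ) ^ S.card) ≤ 6 * (covered S K x).card := by exact_mod_cast h2
    linarith
  have e : (2 * (1 / 3) / (1 - 1 / 3) : ℝ) = 1 := by norm_num
  rw [e] at h1
  refine edges_ge (fun D hD hY => h1 D hD hY) (S.erase x) Subset.rfl D ?_ hD
  intro t ht
  rw [sdiff_self] at ht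
  exact absurd ht (notMem_empty t)

/-- In the case of equality every element `w` of `S` with `{w} ∉ K` is dominated by another
element. -/
theorem dominated {S : Finset α} {K : Finset (Finset α)} (hK : ∀ A ∈ K, A ⊆ S)
    (hU : ∀ A ∈ K, ∀ B ∈ K, A ∪ B ∈ K) (h0 : ∅ ∈ K)
    (heq : 2 * ∑ A ∈ K, A.card ≤ K.card * S.card)
    (hdeg : ∀ x ∈ S, 2 ^ S.card ≤ 6 * (K.filter (fun A => x ∈ A)).card) {w : α} (hw : w ∈ S)
    (hsing : {w} ∉ K) : ∃ a ∈ S, a ≠ w ∧ ∀ A ∈ K, w ∈ A → a ∈ A := by
  have hpow : ∀ x ∈ S, 2 ^ S.card = 2 * 2 ^ (S.erase x).card := by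
    intro x hx
    rw [← pow_succ', card_erase_of_mem hx]
    congr 1
    have : 0 < S.card := card_pos.2 ⟨x, hx⟩
    omega
  have hins : ∀ (x : α) (A B : Finset α), insert x A ∪ insert x B = insert x (A ∪ B) := by
    intro x A B
    ext y; simp only [mem_union, mem_insert]; tauto
  -- the lower bound for every direction
  have hlow : ∀ x ∈ S, 2 ^ (S.erase x).card * D S K x ≤
      L (S.erase x) (fun A => A ∈ K) (fun A => insert x A ∈ K) := by
    intro x hx
    have := zed' (N := S.erase x) (Q := fun A => A ∈ K) (P := fun A => insert x A ∈ K)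
      (Y := fun B => insert x B ∈ K) (l := 1) zero_le_one
      (fun D _ hY => iso_one hK hx (hdeg x hx) D hY)
      (by
        intro A B hA hB
        have := hU _ hA _ hB
        rwa [insert_union] at this)
      (by
        intro A B hA hB
        have := hU _ hA _ hB
        rwa [hins] at this)
      (by
        intro A B hA hB
        have := hU _ hA _ hB
        rwa [insert_union] at this)
      (by
        intro A B hA hB
        have := hU _ hA _ hB
        rwa [hins] at this)
    rw [one_mul] at this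
    unfold D
    exact_mod_cast this
  have hbal := balance hK
  have hsum := L_sum_le (S := S) (K := K)
  have htot : ∑ x ∈ S, L (S.erase x) (fun A => A ∈ K) (fun A => insert x A ∈ K) ≤
      ∑ x ∈ S, 2 ^ (S.erase x).card * D S K x := by
    have h1 : 2 ^ S.card * U S K ≤ 2 ^ S.card * ∑ x ∈ S, D S K x :=
      Nat.mul_le_mul_left _ (by omega)
    have h2 : 2 ^ S.card * ∑ x ∈ S, D S K x =
        2 * ∑ x ∈ S, 2 ^ (S.erase x).card * D S K x := by
      rw [mul_sum, mul_sum]
      refine sum_congr rfl fun x hx => ?_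
      rw [hpow x hx]
      ring
    omega
  have htight : L (S.erase w) (fun A => A ∈ K) (fun A => insert w A ∈ K) ≤
      2 ^ (S.erase w).card * D S K w := by
    by_contra hlt
    push Not at hlt
    have := sum_lt_sum hlow ⟨w, hw, hlt⟩
    omega
  -- the pair with `P ⊆ Q`
  have hD1 : D S K w ≤ cnt (S.erase w)
      (fun A => (A ∈ K ∨ insert w A ∈ K) ∧ ¬ insert w A ∈ K) := by
    unfold D
    exact cnt_mono _ _ _ (fun A _ hA => ⟨Or.inl hA.1, hA.2⟩)
  have hL1 : L (S.erase w) (fun A => A ∈ K ∨ insert w A ∈ K) (fun A => insert w A ∈ K) ≤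
      L (S.erase w) (fun A => A ∈ K) (fun A => insert w A ∈ K) := by
    unfold L
    refine sum_le_sum fun W _ => sum_le_sum fun E _ => sum_le_sum fun k _ => ind_mono ?_
    rintro ⟨g1, ⟨A, hA, g2, g3⟩, g4, g5⟩
    exact ⟨g1, ⟨A, hA.resolve_right (fun hP => g4 ⟨A, hP, g2⟩), g2, g3⟩, g4, g5⟩
  have hleaf := tight_leaf (N := S.erase w) (Y := fun B => insert w B ∈ K)
    (Q := fun A => A ∈ K ∨ insert w A ∈ K) (P := fun A => insert w A ∈ K)
    (fun D hD => iso_one hK hw (hdeg w hw) D hD)
    (by
      rintro A B hA (hB | hB)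
      · have := hU _ hA _ hB
        rwa [insert_union] at this
      · have := hU _ hA _ hB
        rwa [hins] at this)
    (by
      rintro A B hA (hB | hB)
      · have := hU _ hA _ hB
        rwa [insert_union] at this
      · have := hU _ hA _ hB
        rwa [hins] at this)
    (fun A hA => Or.inr hA) (Or.inl h0)
    (hL1.trans (htight.trans (Nat.mul_le_mul_left _ hD1)))
  have hcov : 2 ^ (S.erase w).card ≤
      3 * cnt (S.erase w) (fun A => ¬ ¬ Up (fun A => insert w A ∈ K) A) := by
    have e : cnt (S.erase w) (fun A => ¬ ¬ Up (fun A => insert w A ∈ K) A) = cov S K w := by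
      unfold cov cnt
      refine sum_congr rfl fun A _ => ?_
      beta_reduce
      rw [not_not]
    rw [e]
    have h1 := hdeg w hw
    have h2 := deg_le_covered hK w
    have h3 := covered_le S K w
    have h4 := hpow w hw
    omega
  obtain ⟨a, ha, hDa⟩ := stability (S.erase w) (fun A => ¬ Up (fun A => insert w A ∈ K) A)
    (by
      rintro t _ A hA ⟨B, hB, hBA⟩
      exact hA ⟨B, hB, hBA.trans (subset_insert _ _)⟩)
    (by
      rintro ⟨B, hB, hB0⟩
      have : B = ∅ := subset_empty.1 hB0
      subst this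
      exact hsing (by simpa using hB))
    hleaf hcov
  refine ⟨a, mem_of_mem_erase ha, ne_of_mem_erase ha, ?_⟩
  intro A hA hwA
  by_contra haA
  apply hDa
  refine ⟨A.erase w, ?_, ?_⟩
  · show insert w (A.erase w) ∈ K
    rwa [insert_erase hwA]
  · intro y hy
    rw [mem_erase] at hy
    rw [mem_erase, mem_erase]
    exact ⟨fun h => haA (h ▸ hy.2), hy.1, hK A hA hy.2⟩

end Pool.Agent.K35c.PD
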