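import Pool.Agent.N188.FC.Digit

set_option autoImplicit false

/-!
# More on the sum of the binary digit sums
-/

namespace Pool.Agent.K35c.PD

open Pool.Agent.N188.FC

theorem ds_add_pow (k : ℕ) : ∀ i, i < 2 ^ k → ds (2 ^ k + i) = ds i + 1 := by
  induction k with
  | zero =>
    intro i hi
    have : i = 0 := by simpa using hi
    subst this
    decide
  | succ k ih =>
    intro i hi
    have hp : 2 ^ (k + 1) = 2 * 2 ^ k := by ring
    rw [hp] at hi ⊢
    obtain ⟨j, hj | hj⟩ := Nat.even_or_odd' i
    · have h1 := ih j (by omega)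
      have e : 2 * 2 ^ k + i = 2 * (2 ^ k + j) := by omega
      rw [e, ds_even, h1, hj, ds_even]
    · have h1 := ih j (by omega)
      have e : 2 * 2 ^ k + i = 2 * (2 ^ k + j) + 1 := by omega
      rw [e, ds_odd, h1, hj, ds_odd]

theorem gs_add_pow (k : ℕ) : ∀ r, r ≤ 2 ^ k → gs (2 ^ k + r) = gs (2 ^ k) + gs r + r := by
  intro r
  induction r with
  | zero => intro _; simp [gs_zero]
  | succ r ih =>
    intro hr
    rw [← add_assoc, gs_succ, ih (by omega), ds_add_pow k r (by omega), gs_succ]
    ring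

/-- `2 gs c ≤ k c` for `c ≤ 2 ^ k`. -/
theorem gs_le (k : ℕ) : ∀ c, c ≤ 2 ^ k → 2 * gs c ≤ k * c := by
  induction k with
  | zero =>
    intro c hc
    have : c = 0 ∨ c = 1 := by
      have : c ≤ 1 := by simpa using hc
      omega
    rcases this with rfl | rfl
    · simp [gs_zero]
    · have : gs 1 = 0 := by decide
      rw [this]
  | succ k ih =>
    intro c hc
    have hp : 2 ^ (k + 1) = 2 * 2 ^ k := by ring
    rw [hp] at hc
    obtain ⟨j, hj | hj⟩ := Nat.even_or_odd' c
    · have h1 := ih j (by omega)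
      rw [hj, gs_even]
      have e : (k + 1) * (2 * j) = 2 * (k * j) + 2 * j := by ring
      rw [e]
      omega
    · have h1 := ih j (by omega)
      have h2 := ih (j + 1) (by omega)
      rw [hj, gs_odd]
      have e : (k + 1) * (2 * j + 1) = k * j + k * (j + 1) + 2 * j + 1 := by ring
      rw [e]
      omega

/-- `2 gs c < k c` for `0 < c < 2 ^ k`. -/
theorem gs_lt (k : ℕ) : ∀ c, 0 < c → c < 2 ^ k → 2 * gs c < k * c := by
  induction k with
  | zero =>
    intro c h0 hc
    have : c < 1 := by simpa using hc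
    omega
  | succ k ih =>
    intro c h0 hc
    have hp : 2 ^ (k + 1) = 2 * 2 ^ k := by ring
    rw [hp] at hc
    obtain ⟨j, hj | hj⟩ := Nat.even_or_odd' c
    · have h1 := ih j (by omega) (by omega)
      rw [hj, gs_even]
      have e : (k + 1) * (2 * j) = 2 * (k * j) + 2 * j := by ring
      rw [e]
      omega
    · have h1 := gs_le k j (by omega)
      have h2 := gs_le k (j + 1) (by omega)
      rw [hj, gs_odd]
      have e : (k + 1) * (2 * j + 1) = k * j + k * (j + 1) + 2 * j + 1 := by ring
      rw [e]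
      omega

/-- the symmetry under complements -/
theorem gs_compl (k : ℕ) : ∀ c d, c + d = 2 ^ k → 2 * gs d + k * c = 2 * gs c + k * d := by
  induction k with
  | zero =>
    intro c d h
    have : (c = 0 ∧ d = 1) ∨ (c = 1 ∧ d = 0) := by
      have : c + d = 1 := by simpa using h
      omega
    have g1 : gs 1 = 0 := by decide
    rcases this with ⟨rfl, rfl⟩ | ⟨rfl, rfl⟩
    · rw [g1, gs_zero]
    · rw [g1, gs_zero]
  | succ k ih =>
    intro c d h
    have hp : 2 ^ (k + 1) = 2 * 2 ^ k := by ring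
    rw [hp] at h
    obtain ⟨i, hi | hi⟩ := Nat.even_or_odd' c <;> obtain ⟨j, hj | hj⟩ := Nat.even_or_odd' d
    · have h1 := ih i j (by omega)
      rw [hi, hj, gs_even, gs_even]
      have e1 : (k + 1) * (2 * i) = 2 * (k * i) + 2 * i := by ring
      have e2 : (k + 1) * (2 * j) = 2 * (k * j) + 2 * j := by ring
      rw [e1, e2]
      omega
    · omega
    · omega
    · have h1 := ih i (j + 1) (by omega)
      have h2 := ih (i + 1) j (by omega)
      rw [hi, hj, gs_odd, gs_odd]
      have e1 : (k + 1) * (2 * i + 1) = k * i + k * (i + 1) + 2 * i + 1 := by ring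
      have e2 : (k + 1) * (2 * j + 1) = k * j + k * (j + 1) + 2 * j + 1 := by ring
      rw [e1, e2]
      omega

/-- the average digit sum between `2 ^ d / 3` and `2 ^ d / 2` -/
theorem gs_third (d m : ℕ) (h3 : 2 ^ d ≤ 3 * m) (h2 : 2 * m ≤ 2 ^ d) :
    2 ^ d + 2 * gs m ≤ (d + 1) * m := by
  rcases d with _ | d
  · have : 2 * m ≤ 1 := by simpa using h2
    have h3' : 1 ≤ 3 * m := by simpa using h3
    omega
  · have hp : 2 ^ (d + 1) = 2 * 2 ^ d := by ring
    rw [hp] at h2 h3 ⊢
    obtain ⟨c, hc⟩ : ∃ c, m + c = 2 ^ d := ⟨2 ^ d - m, by omega⟩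
    have h4 := gs_compl d c m (by omega)
    -- 2 gs m + d c = 2 gs c + d m
    rcases d with _ | d
    · have e : (2 : ℕ) ^ 0 = 1 := rfl
      rw [e] at hc h2 h3 ⊢
      have hm : m = 1 := by omega
      subst hm
      have : gs 1 = 0 := by decide
      rw [this]
    · have hp' : 2 ^ (d + 1) = 2 * 2 ^ d := by ring
      have h5 := gs_bound d c 0 (by norm_num) (by omega)
      have e1 : (d + 1 + 1 + 1) * m = (d + 1) * m + 2 * m := by ring
      have e2 : (d + 1) * c = d * c + c := by ring
      rw [e1]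
      rw [e2] at h4
      omega

end Pool.Agent.K35c.PD
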