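import Pool.Agent.K35c.PD.Dom

set_option autoImplicit false

/-!
# The local theorem
-/

namespace Pool.Agent.K35c.PD

open Finset
open Pool.Agent.N188.FC
open scoped Classical

variable {α : Type*} [DecidableEq α]

/-- a family of sets determined by their elements outside a set with three elements -/
theorem card_le_of_three {S X : Finset α} {M : Finset (Finset α)} (hM : ∀ A ∈ M, A ⊆ S)
    (hX : X ⊆ S) (hX3 : X.card = 3)
    (hinj : ∀ A ∈ M, ∀ B ∈ M, A \ X = B \ X → A = B) : 8 * M.card ≤ 2 ^ S.card := by
  have h1 : M.card ≤ (S \ X).powerset.card := by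
    refine card_le_card_of_injOn (fun A => A \ X) ?_ ?_
    · intro A hA
      simp only [coe_powerset, Set.mem_preimage, Set.mem_powerset_iff, coe_subset]
      exact sdiff_subset_sdiff (hM A hA) Subset.rfl
    · intro A hA B hB h
      exact hinj A hA B hB h
  rw [card_powerset, card_sdiff_of_subset hX, hX3] at h1
  have h2 : 3 ≤ S.card := hX3 ▸ card_le_card hX
  obtain ⟨k, hk⟩ : ∃ k, S.card = k + 3 := ⟨S.card - 3, by omega⟩
  rw [hk] at h1 ⊢
  have h3 : k + 3 - 3 = k := by omega
  rw [h3] at h1
  have h4 : 2 ^ (k + 3) = 8 * 2 ^ k := by ring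
  omega

theorem card_three {x y z : α} (h1 : x ≠ y) (h2 : x ≠ z) (h3 : y ≠ z) :
    ({x, y, z} : Finset α).card = 3 := card_eq_three.2 ⟨x, y, z, h1, h2, h3, rfl⟩

/-- If every element is dominated by another one, then `S` has two elements and they are not
separated. -/
theorem pair {S : Finset α} {K : Finset (Finset α)} (hK : ∀ A ∈ K, A ⊆ S) (hne : S.Nonempty)
    (hdeg : ∀ x ∈ S, 2 ^ S.card ≤ 6 * (K.filter (fun A => x ∈ A)).card)
    (hdom : ∀ w ∈ S, ∃ a ∈ S, a ≠ w ∧ ∀ A ∈ K, w ∈ A → a ∈ A) :
    S.card = 2 ∧ ∀ A ∈ K, A = ∅ ∨ A = S := by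
  have hp : 0 < 2 ^ S.card := by positivity
  -- no element dominated by two others
  have key : ∀ w ∈ S, ∀ a ∈ S, ∀ b ∈ S, a ≠ w → b ≠ w → a ≠ b →
      (∀ A ∈ K, w ∈ A → a ∈ A) → (∀ A ∈ K, w ∈ A → b ∈ A) → False := by
    intro w hw a ha b hb haw hbw hab h1 h2
    have h3 := card_le_of_three (S := S) (X := {w, a, b}) (M := K.filter (fun A => w ∈ A))
      (fun A hA => hK A (mem_filter.1 hA).1)
      (by
        intro x hx
        simp only [mem_insert, mem_singleton] at hx
        rcases hx with rfl | rfl | rfl <;> assumption)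
      (card_three haw.symm hbw.symm hab)
      (by
        intro A hA B hB hAB
        rw [mem_filter] at hA hB
        have hsub : ∀ C ∈ K, w ∈ C → ({w, a, b} : Finset α) ⊆ C := by
          intro C hC hwC x hx
          simp only [mem_insert, mem_singleton] at hx
          rcases hx with rfl | rfl | rfl
          · exact hwC
          · exact h1 C hC hwC
          · exact h2 C hC hwC
        rw [← sdiff_union_of_subset (hsub A hA.1 hA.2), hAB,
          sdiff_union_of_subset (hsub B hB.1 hB.2)])
    have h4 := hdeg w hw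
    omega
  have hinv : ∀ w ∈ S, ∃ a ∈ S, a ≠ w ∧ ∀ A ∈ K, w ∈ A ↔ a ∈ A := by
    intro w hw
    obtain ⟨a, ha, haw, h1⟩ := hdom w hw
    obtain ⟨b, hb, hba, h2⟩ := hdom a ha
    refine ⟨a, ha, haw, fun A hA => ⟨h1 A hA, fun haA => ?_⟩⟩
    by_cases hbw : b = w
    · rw [← hbw]; exact h2 A hA haA
    · exact (key w hw a ha b hb haw hbw hba.symm h1 (fun A hA hwA => h2 A hA (h1 A hA hwA))).elim
  obtain ⟨w, hw⟩ := hne
  obtain ⟨a, ha, haw, h1⟩ := hinv w hw
  have hS : S = {w, a} := by
    apply Subset.antisymm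
    · intro c hc
      by_contra hcn
      simp only [mem_insert, mem_singleton, not_or] at hcn
      obtain ⟨d, hd, hdc, h2⟩ := hinv c hc
      by_cases hdw : d = w
      · subst hdw
        exact key c hc d hd a ha hdc (fun h => hcn.2 h.symm) haw.symm
          (fun A hA hcA => (h2 A hA).1 hcA) (fun A hA hcA => (h1 A hA).1 ((h2 A hA).1 hcA))
      by_cases hda : d = a
      · subst hda
        exact key c hc d hd w hw hdc (fun h => hcn.1 h.symm) haw
          (fun A hA hcA => (h2 A hA).1 hcA) (fun A hA hcA => (h1 A hA).2 ((h2 A hA).1 hcA))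
      have h3 := card_le_of_three (S := S) (X := {w, a, d}) (M := K.filter (fun A => w ∈ A))
        (fun A hA => hK A (mem_filter.1 hA).1)
        (by
          intro x hx
          simp only [mem_insert, mem_singleton] at hx
          rcases hx with rfl | rfl | rfl <;> assumption)
        (card_three haw.symm (fun h => hdw h.symm) (fun h => hda h.symm))
        (by
          intro A hA B hB hAB
          rw [mem_filter] at hA hB
          have hc : ∀ C : Finset α, c ∈ C ↔ c ∈ C \ {w, a, d} := by
            intro C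
            rw [mem_sdiff]
            constructor
            · intro h
              refine ⟨h, ?_⟩
              simp only [mem_insert, mem_singleton, not_or]
              exact ⟨hcn.1, hcn.2, hdc.symm⟩
            · exact fun h => h.1
          have haA := (h1 A hA.1).1 hA.2
          have haB := (h1 B hB.1).1 hB.2
          have hdAB : d ∈ A ↔ d ∈ B := by
            rw [← h2 A hA.1, ← h2 B hB.1, hc A, hc B, hAB]
          ext x
          by_cases hx : x ∈ ({w, a, d} : Finset α)
          · simp only [mem_insert, mem_singleton] at hx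
            rcases hx with rfl | rfl | rfl
            · exact ⟨fun _ => hB.2, fun _ => hA.2⟩
            · exact ⟨fun _ => haB, fun _ => haA⟩
            · exact hdAB
          · have e : ∀ C : Finset α, x ∈ C ↔ x ∈ C \ {w, a, d} := by
              intro C
              rw [mem_sdiff]
              exact ⟨fun h => ⟨h, hx⟩, fun h => h.1⟩
            rw [e A, e B, hAB])
      have h4 := hdeg w hw
      omega
    · intro x hx
      simp only [mem_insert, mem_singleton] at hx
      rcases hx with rfl | rfl <;> assumption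
  refine ⟨by rw [hS]; exact card_pair haw.symm, ?_⟩
  intro A hA
  by_cases hwA : w ∈ A
  · right
    apply Subset.antisymm (hK A hA)
    rw [hS]
    intro x hx
    simp only [mem_insert, mem_singleton] at hx
    rcases hx with rfl | rfl
    · exact hwA
    · exact (h1 A hA).1 hwA
  · left
    rw [eq_empty_iff_forall_notMem]
    intro x hxA
    have hx := hK A hA hxA
    rw [hS] at hx
    simp only [mem_insert, mem_singleton] at hx
    rcases hx with rfl | rfl
    · exact hwA hxA
    · exact hwA ((h1 A hA).2 hxA)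

/-- An element `w` with `{w} ∈ F` which lies in at most half of the members can be removed from
every member containing it. -/
theorem free_of_singleton {F : Finset (Finset α)} (hF : ∀ A ∈ F, ∀ B ∈ F, A ∪ B ∈ F) {w : α}
    (hw : {w} ∈ F) (hfreq : 2 * (F.filter (fun A => w ∈ A)).card ≤ F.card) :
    ∀ A ∈ F, A ∪ {w} ∈ F ∧ A \ {w} ∈ F := by
  intro A hA
  refine ⟨hF A hA _ hw, ?_⟩
  by_cases hwA : w ∈ A
  · have hsplit := card_filter_add_card_filter_not (s := F) (fun B => w ∈ B)
    have himg : (F.filter (fun B => w ∉ B)).image (fun B => B ∪ {w}) =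
        F.filter (fun B => w ∈ B) := by
      apply eq_of_subset_of_card_le
      · intro C hC
        rw [mem_image] at hC
        obtain ⟨B, hB, rfl⟩ := hC
        rw [mem_filter] at hB ⊢
        exact ⟨hF B hB.1 _ hw, by simp⟩
      · rw [card_image_of_injOn]
        · omega
        · intro B hB C hC h
          rw [coe_filter, Set.mem_ofPred_eq] at hB hC
          have h' : B ∪ {w} = C ∪ {w} := h
          have e : ∀ D : Finset α, w ∉ D → (D ∪ {w}) \ {w} = D := by
            intro D hD
            ext x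
            simp only [mem_sdiff, mem_union, mem_singleton]
            constructor
            · rintro ⟨h1 | h1, h2⟩
              · exact h1
              · exact absurd h1 h2
            · intro h1
              exact ⟨Or.inl h1, fun h2 => hD (h2 ▸ h1)⟩
          rw [← e B hB.2, h', e C hC.2]
    have h1 : A ∈ (F.filter (fun B => w ∉ B)).image (fun B => B ∪ {w}) := by
      rw [himg, mem_filter]; exact ⟨hA, hwA⟩
    rw [mem_image] at h1
    obtain ⟨B, hB, hBA⟩ := h1
    rw [mem_filter] at hB
    have : A \ {w} = B := by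
      rw [← hBA]
      ext x
      simp only [mem_sdiff, mem_union, mem_singleton]
      constructor
      · rintro ⟨h1 | h1, h2⟩
        · exact h1
        · exact absurd h1 h2
      · intro h1
        exact ⟨Or.inl h1, fun h2 => hB.2 (h2 ▸ h1)⟩
    rw [this]
    exact hB.1
  · rw [sdiff_singleton_eq_erase, erase_eq_of_notMem hwA]
    exact hA

open Pool.Agent.N188.LD in
/-- The local theorem for elements of large degree inside `S`. -/
theorem local_deg {F : Finset (Finset α)} {S : Finset α} (hF : ∀ A ∈ F, ∀ B ∈ F, A ∪ B ∈ F)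
    (h0 : ∅ ∈ F) (hne : S.Nonempty)
    (hdeg : ∀ x ∈ S, 2 ^ S.card ≤ 6 * (F.filter (fun A => x ∈ A ∧ A ⊆ S)).card)
    (hfreq : ∀ x ∈ S, 2 * (F.filter (fun A => x ∈ A)).card ≤ F.card) :
    ∃ P ⊆ S, P.Nonempty ∧ P.card ≤ 2 ∧ ∀ A ∈ F, A ∪ P ∈ F ∧ A \ P ∈ F := by
  set G := F.filter (fun A => A ⊆ S) with hGdef
  have hG : ∀ B ∈ G, B ⊆ S := fun B hB => (mem_filter.1 hB).2
  have ha : ∀ A ∈ F, ∀ B ∈ G, A ∪ B ∈ F := fun A hA B hB => hF A hA B (mem_filter.1 hB).1
  have hdegG : ∀ x ∈ S, 2 ^ S.card ≤ 6 * (G.filter (fun A => x ∈ A)).card := by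
    intro x hx
    have := hdeg x hx
    have e : G.filter (fun A => x ∈ A) = F.filter (fun A => x ∈ A ∧ A ⊆ S) := by
      rw [hGdef, filter_filter]
      refine filter_congr fun A _ => ?_
      exact and_comm
    rwa [e]
  have hiso : ∀ w ∈ S, IsoAt S G 1 w := by
    intro w hw
    have h1 : IsoAt S G (2 * (1 / 3) / (1 - 1 / 3)) w := by
      refine isoAt_of_measure (by norm_num) le_rfl hw ?_
      have h2 : 2 ^ S.card ≤ 6 * (covered S G w).card :=
        (hdegG w hw).trans (Nat.mul_le_mul_left 6 (deg_le_covered hG w))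
      have h3 : ((2 : ℝ) ^ S.card) ≤ 6 * (covered S G w).card := by exact_mod_cast h2
      linarith
    have e : (2 * (1 / 3) / (1 - 1 / 3) : ℝ) = 1 := by norm_num
    rwa [e] at h1
  have hpart : ∀ T, ((fib F S T).card : ℝ) * S.card ≤ ∑ A ∈ fib F S T, 2 * (A.card : ℝ) := by
    intro T
    have h1 := avg_iso (S := S) (K := fib F S T) (G := G) (fib_sub T) (fib_union hF T)
      (fib_absorb hG ha T) zero_le_one le_rfl hiso
    rw [← mul_sum]
    linarith
  have htot : ∑ A ∈ F, 2 * ((A ∩ S).card : ℝ) ≤ (F.card : ℝ) * S.card := by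
    have h1 : ∑ x ∈ S, 2 * (F.filter (fun A => x ∈ A)).card ≤ ∑ x ∈ S, F.card :=
      sum_le_sum hfreq
    rw [← mul_sum, sum_freq, sum_const, smul_eq_mul, mul_comm S.card] at h1
    rw [← mul_sum]
    exact_mod_cast h1
  have heq : ∀ T, 2 * ∑ A ∈ fib F S T, A.card ≤ (fib F S T).card * S.card := by
    intro T
    by_contra hlt
    push Not at hlt
    have h1 := fib_sum_lt F S S.card hpart ⟨T, by
      rw [← mul_sum]
      exact_mod_cast hlt⟩
    linarith
  by_cases hsing : ∃ w ∈ S, {w} ∈ F
  · obtain ⟨w, hw, hwF⟩ := hsing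
    exact ⟨{w}, singleton_subset_iff.2 hw, singleton_nonempty w, by simp,
      free_of_singleton hF hwF (hfreq w hw)⟩
  · push Not at hsing
    have hKG : fib F S ∅ = G := by
      ext C
      rw [mem_fib, hGdef, mem_filter]
      constructor
      · rintro ⟨A, hA, h1, rfl⟩
        have h2 := sdiff_eq_empty_iff_subset.1 h1
        rw [inter_eq_left.2 h2]
        exact ⟨hA, h2⟩
      · rintro ⟨h1, h2⟩
        exact ⟨C, h1, sdiff_eq_empty_iff_subset.2 h2, inter_eq_left.2 h2⟩
    have hGU : ∀ A ∈ G, ∀ B ∈ G, A ∪ B ∈ G := by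
      intro A hA B hB
      rw [hGdef, mem_filter] at *
      exact ⟨hF A hA.1 B hB.1, union_subset hA.2 hB.2⟩
    have heqG := heq ∅
    rw [hKG] at heqG
    have hdom : ∀ w ∈ S, ∃ a ∈ S, a ≠ w ∧ ∀ A ∈ G, w ∈ A → a ∈ A := by
      intro w hw
      exact dominated hG hGU (mem_filter.2 ⟨h0, empty_subset _⟩) heqG hdegG hw
        (fun h => hsing w hw (mem_filter.1 h).1)
    obtain ⟨hS2, hGS⟩ := pair hG hne hdegG hdom
    have hSF : S ∈ F := by
      obtain ⟨x, hx⟩ := hne
      have h1 := hdegG x hx
      have h2 : 0 < (G.filter (fun A => x ∈ A)).card := by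
        have : 0 < 2 ^ S.card := by positivity
        omega
      obtain ⟨A, hA⟩ := card_pos.1 h2
      rw [mem_filter] at hA
      rcases hGS A hA.1 with rfl | rfl
      · exact absurd hA.2 (notMem_empty x)
      · exact (mem_filter.1 hA.1).1
    refine ⟨S, Subset.rfl, hne, hS2.le, ?_⟩
    intro A hA
    refine ⟨hF A hA S hSF, ?_⟩
    by_contra hcon
    have h1 := heq (A \ S)
    rw [hS2] at h1
    have hempty : ∅ ∉ fib F S (A \ S) := by
      intro h
      rw [mem_fib] at h
      obtain ⟨B, hB, h2, h3⟩ := h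
      apply hcon
      rw [← h2]
      have : B \ S = B := by
        rw [Finset.sdiff_eq_self_iff_disjoint, disjoint_iff_inter_eq_empty]
        exact h3
      rw [this]
      exact hB
    have hSin : S ∈ fib F S (A \ S) := by
      rw [mem_fib]
      refine ⟨A ∪ S, hF A hA S hSF, ?_, ?_⟩
      · rw [union_sdiff_right]
      · exact inter_eq_right.2 subset_union_right
    have h2 : ∑ B ∈ fib F S (A \ S), 1 < ∑ B ∈ fib F S (A \ S), B.card := by
      apply sum_lt_sum
      · intro B hB
        rw [Nat.one_le_iff_ne_zero, Ne, card_eq_zero]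
        rintro rfl
        exact hempty hB
      · exact ⟨S, hSin, by rw [hS2]; norm_num⟩
    rw [sum_const, smul_eq_mul, mul_one] at h2
    omega

end Pool.Agent.K35c.PD
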