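import Pool.Agent.N188.FC.Iso
import Pool.Agent.K35c.PD.Gs

set_option autoImplicit false

/-!
# Stability in the edge isoperimetric inequality
-/

namespace Pool.Agent.K35c.PD

open Finset
open Pool.Agent.N188.FC
open scoped Classical

variable {α : Type*} [DecidableEq α]

/-- An extremal down-set containing at least half of the subsets of `N`, but not all, contains a
set `N \ {a}`. -/
theorem extremal (N : Finset α) : ∀ D : Finset α → Prop, DownIn N D → N.Nonempty →
    1 ≤ cnt N (fun A => ¬ D A) → 2 * cnt N (fun A => ¬ D A) ≤ 2 ^ N.card →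
    edges N D + 2 * gs (cnt N (fun A => ¬ D A)) ≤ N.card * cnt N (fun A => ¬ D A) →
    ∃ a ∈ N, D (N.erase a) := by
  induction N using Finset.induction_on with
  | empty =>
    intro D _ hne
    exact absurd hne not_nonempty_empty
  | insert a N ha ih =>
    intro D hD _ h1 h2 hext
    by_contra hno
    push Not at hno
    have hD0 : DownIn N D := fun t ht => hD t (mem_insert_of_mem ht)
    have hD1 : DownIn N (fun A => D (insert a A)) := by
      intro t ht A hA
      have hA' : D (insert a (insert t A)) := hA
      rw [insert_comm] at hA'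
      exact hD t (mem_insert_of_mem ht) _ hA'
    have hN : ¬ D N := by
      have := hno a (mem_insert_self _ _)
      rwa [erase_insert ha] at this
    have i0 := harper' N D hD0
    have hc : cnt (insert a N) (fun A => ¬ D A) =
        cnt N (fun A => ¬ D A) + cnt N (fun A => ¬ D (insert a A)) := cnt_insert ha _
    have hle : cnt N (fun A => ¬ D A) ≤ cnt N (fun A => ¬ D (insert a A)) :=
      cnt_mono _ _ _ (fun A _ h h' => h (hD a (mem_insert_self _ _) A h'))
    have he : cnt N (fun A => ¬ D (insert a A)) + edges N D +
        edges N (fun A => D (insert a A)) ≤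
        edges (insert a N) D + cnt N (fun A => ¬ D A) := by
      rw [edges_split ha]
      unfold edges cnt
      simp only [sum_add_distrib]
      have h1 : ∑ A ∈ N.powerset, ind (¬ D (insert a A)) ≤
          ∑ E ∈ N.powerset, ind (D E ∧ ¬ D (insert a E)) + ∑ A ∈ N.powerset, ind (¬ D A) := by
        rw [← sum_add_distrib]
        refine sum_le_sum fun A _ => ?_
        by_cases h1 : D A <;> by_cases h2 : D (insert a A) <;> simp [ind, h1, h2]
      omega
    have hu0 : 1 ≤ cnt N (fun A => ¬ D A) := by
      unfold cnt
      have h3 : ind (¬ D N) ≤ ∑ A ∈ N.powerset, ind (¬ D A) :=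
        single_le_sum (f := fun A => ind (¬ D A)) (fun _ _ => Nat.zero_le _)
          (mem_powerset_self N)
      have h4 : ind (¬ D N) = 1 := by unfold ind; rw [if_pos hN]
      exact h4.symm.le.trans h3
    have hg := gs_add _ (cnt N (fun A => ¬ D A)) (cnt N (fun A => ¬ D (insert a A))) rfl
    rw [min_eq_left hle] at hg
    rw [card_insert_of_notMem ha, hc] at hext
    rw [card_insert_of_notMem ha, hc, pow_succ] at h2
    have ih1 := ih (fun A => D (insert a A)) hD1
    have key : ∀ b ∈ N, ¬ D (insert a (N.erase b)) := by
      intro b hb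
      have := hno b (mem_insert_of_mem hb)
      rwa [erase_insert_of_ne (fun h => ha (by rw [h]; exact hb))] at this
    generalize hu : cnt N (fun A => ¬ D A) = u at *
    generalize hv : cnt N (fun A => ¬ D (insert a A)) = v at *
    have e1 : (N.card + 1) * (u + v) = N.card * u + N.card * v + u + v := by ring
    rw [e1] at hext
    rcases N.eq_empty_or_nonempty with rfl | hNe
    · simp only [card_empty, pow_zero] at h2
      omega
    · by_cases hcase : 2 * v ≤ 2 ^ N.card
      · obtain ⟨b, hb, hDb⟩ := ih1 hNe (by omega) hcase (by omega)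
        exact key b hb hDb
      · obtain ⟨k, hk⟩ : ∃ k, N.card = k + 1 := ⟨N.card - 1, by
          have := hNe.card_pos; omega⟩
        rw [hk, pow_succ] at h2 hcase
        obtain ⟨r, hr⟩ : ∃ r, v = 2 ^ k + r := ⟨v - 2 ^ k, by omega⟩
        subst hr
        have g1 := gs_add_pow k r (by omega)
        have g2 := gs_add_pow k (r + u) (by omega)
        have g3 := gs_add _ r u rfl
        have hmin : 1 ≤ min r u := by
          rw [le_min_iff]; omega
        have e2 : u + (2 ^ k + r) = 2 ^ k + (r + u) := by omega
        have i1 := harper' N (fun A => D (insert a A)) hD1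
        rw [hv] at i1
        rw [e2] at hext hg
        generalize min r u = w at *
        generalize N.card * (2 ^ k + r) = pp at *
        generalize N.card * u = qq at *
        omega

/-- **Stability.** A nonempty down-set `D` with at most `2 / 3` of the subsets of `N` and with at
most `|D|` edges leaving it contains a set `N \ {a}`. -/
theorem stability (N : Finset α) (D : Finset α → Prop) (hD : DownIn N D) (h0 : D ∅)
    (he : edges N D ≤ cnt N D) (h3 : 2 ^ N.card ≤ 3 * cnt N (fun A => ¬ D A)) :
    ∃ a ∈ N, D (N.erase a) := by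
  have hsum : cnt N D + cnt N (fun A => ¬ D A) = 2 ^ N.card := by
    unfold cnt
    rw [← sum_add_distrib]
    calc ∑ A ∈ N.powerset, (ind (D A) + ind (¬ D A)) = ∑ A ∈ N.powerset, 1 := by
          refine sum_congr rfl fun A _ => ?_
          by_cases h1 : D A <;> simp [ind, h1]
      _ = 2 ^ N.card := by simp
  have hpos : 1 ≤ cnt N D := by
    unfold cnt
    have h3 : ind (D ∅) ≤ ∑ A ∈ N.powerset, ind (D A) :=
      single_le_sum (f := fun A => ind (D A)) (fun _ _ => Nat.zero_le _) (empty_mem_powerset N)
    have h4 : ind (D ∅) = 1 := by unfold ind; rw [if_pos h0]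
    exact h4.symm.le.trans h3
  have hNe : N.Nonempty := by
    rw [nonempty_iff_ne_empty]
    rintro rfl
    simp only [card_empty, pow_zero] at hsum h3
    omega
  obtain ⟨k, hk⟩ : ∃ k, N.card = k + 1 := ⟨N.card - 1, by have := hNe.card_pos; omega⟩
  have hp : 2 ^ (k + 1) = 2 * 2 ^ k := by ring
  have hh := harper N D hD
  have hhalf : 2 ^ k ≤ cnt N D := by
    by_contra hlt
    push Not at hlt
    have g := gs_lt k (cnt N D) hpos hlt
    rw [hk] at hh
    have e : (k + 1) * cnt N D = k * cnt N D + cnt N D := by ring
    rw [e] at hh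
    omega
  have g2 := gs_third N.card (cnt N (fun A => ¬ D A)) h3 (by rw [hk, hp] at hsum ⊢; omega)
  have e2 : (N.card + 1) * cnt N (fun A => ¬ D A) =
      N.card * cnt N (fun A => ¬ D A) + cnt N (fun A => ¬ D A) := by ring
  rw [e2] at g2
  refine extremal N D hD hNe ?_ ?_ ?_
  · have : 0 < 2 ^ N.card := by positivity
    omega
  · rw [hk, hp] at hsum ⊢; omega
  · omega

end Pool.Agent.K35c.PD
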