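import Pool.Agent.N188.FC.Third
import Pool.Agent.K35c.PD.Stab

set_option autoImplicit false

/-!
# The case of equality in the edge inequality
-/

namespace Pool.Agent.K35c.PD

open Finset
open Pool.Agent.N188.FC
open scoped Classical

variable {α : Type*} [DecidableEq α]

/-- equality is inherited by the saturation in all directions -/
theorem tight_sat {N : Finset α} {Y : Finset α → Prop}
    (h : ∀ D : Finset α → Prop, (∀ A, D A → ¬ Up Y A) → (1 : ℝ) * cnt N D ≤ edges N D)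
    (R : Finset α) : R ⊆ N → ∀ Q P : Finset α → Prop, MonoIn (N \ R) Q → MonoIn (N \ R) P →
    (∀ A B, P A → Q B → P (A ∪ B)) → (∀ A B, Y A → Q B → P (A ∪ B)) → (∀ A, P A → Q A) →
    L N Q P ≤ 2 ^ N.card * cnt N (fun A => Q A ∧ ¬ P A) →
    ∃ Q' P' : Finset α → Prop, MonoIn N Q' ∧ MonoIn N P' ∧ (∀ A, Q A → Q' A) ∧
      (∀ A, P A → P' A) ∧ (∀ A, P' A → Up P A) ∧
      L N Q' P' ≤ 2 ^ N.card * cnt N (fun A => Q' A ∧ ¬ P' A) := by
  induction R using Finset.induction_on with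
  | empty =>
    intro _ Q P hQ hP _ _ _ ht
    rw [sdiff_empty] at hQ hP
    exact ⟨Q, P, hQ, hP, fun _ h => h, fun _ h => h, fun A hA => ⟨A, hA, Subset.rfl⟩, ht⟩
  | insert a R haR ih =>
    intro hR Q P hQ hP hPQ hYQ hsub ht
    have haN : a ∈ N := hR (mem_insert_self _ _)
    have hRN : R ⊆ N := (subset_insert _ _).trans hR
    have hset : insert a (N \ insert a R) = N \ R := by
      ext x
      simp only [mem_insert, mem_sdiff]
      constructor
      · rintro (rfl | ⟨h1, h2⟩)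
        · exact ⟨haN, haR⟩
        · exact ⟨h1, fun h3 => h2 (Or.inr h3)⟩
      · rintro ⟨h1, h2⟩
        by_cases hx : x = a
        · exact Or.inl hx
        · exact Or.inr ⟨h1, fun h3 => h3.elim hx h2⟩
    have hQA := opA_mono (a := a) hQ
    have hPA := opA_mono (a := a) hP
    have hQB := opB_mono (a := a) hQ
    have hPB := opB_mono (a := a) hP
    rw [hset] at hQA hPA hQB hPB
    have iB := zed_of_edges (zero_le_one) h R hRN (opB a Q) (opB a P) hQB hPB (opB_join hPQ)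
      (opB_join' hYQ) (fun A hA => ⟨hsub _ hA.1, hsub _ hA.2⟩)
    have iB' : 2 ^ N.card * cnt N (fun A => opB a Q A ∧ ¬ opB a P A) ≤
        L N (opB a Q) (opB a P) := by
      have : (2 : ℝ) ^ N.card * cnt N (fun A => opB a Q A ∧ ¬ opB a P A) ≤
        L N (opB a Q) (opB a P) := by simpa only [one_mul] using iB
      exact_mod_cast this
    have hstep : L N (opA a Q) (opA a P) + L N (opB a Q) (opB a P) ≤ 2 * L N Q P ∧
        2 * cnt N (fun A => Q A ∧ ¬ P A) ≤
          cnt N (fun A => opA a Q A ∧ ¬ opA a P A) + cnt N (fun A => opB a Q A ∧ ¬ opB a P A) := by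
      obtain ⟨N', hN', rfl⟩ : ∃ N', a ∉ N' ∧ insert a N' = N :=
        ⟨N.erase a, notMem_erase _ _, insert_erase haN⟩
      exact ⟨L_step (Q := Q) (P := P) hN' hPQ, cnt_step (Q := Q) (P := P) hN' hPQ hsub⟩
    have htA : L N (opA a Q) (opA a P) ≤
        2 ^ N.card * cnt N (fun A => opA a Q A ∧ ¬ opA a P A) := by
      have h2 := Nat.mul_le_mul_left (2 ^ N.card) hstep.2
      rw [mul_add] at h2
      have h3 : 2 ^ N.card * (2 * cnt N (fun A => Q A ∧ ¬ P A)) =
          2 * (2 ^ N.card * cnt N (fun A => Q A ∧ ¬ P A)) := by ring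
      rw [h3] at h2
      have h1 := hstep.1
      omega
    obtain ⟨Q', P', m1, m2, m3, m4, m5, m6⟩ := ih hRN (opA a Q) (opA a P) hQA hPA (opA_join hPQ)
      (opA_join' hYQ)
      (fun A hA => hA.elim (fun h => Or.inl (hsub _ h)) (fun h => Or.inr ⟨h.1, hsub _ h.2⟩)) htA
    refine ⟨Q', P', m1, m2, fun A hA => m3 A (Or.inl hA), fun A hA => m4 A (Or.inl hA), ?_, m6⟩
    intro A hA
    obtain ⟨B, hB, hBA⟩ := m5 A hA
    rcases hB with hB | ⟨_, hB⟩
    · exact ⟨B, hB, hBA⟩
    · exact ⟨_, hB, (erase_subset _ _).trans hBA⟩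

/-- In the case of equality at most `|D|` edges leave the family `D` of the sets containing no
member of `P`. -/
theorem tight_leaf {N : Finset α} {Y Q P : Finset α → Prop}
    (h : ∀ D : Finset α → Prop, (∀ A, D A → ¬ Up Y A) → (1 : ℝ) * cnt N D ≤ edges N D)
    (hPQ : ∀ A B, P A → Q B → P (A ∪ B)) (hYQ : ∀ A B, Y A → Q B → P (A ∪ B))
    (hsub : ∀ A, P A → Q A) (h0 : Q ∅)
    (ht : L N Q P ≤ 2 ^ N.card * cnt N (fun A => Q A ∧ ¬ P A)) :
    edges N (fun A => ¬ Up P A) ≤ cnt N (fun A => ¬ Up P A) := by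
  obtain ⟨Q', P', m1, m2, m3, m4, m5, m6⟩ := tight_sat h N Subset.rfl Q P
    (by intro t ht; rw [sdiff_self] at ht; exact absurd ht (notMem_empty t))
    (by intro t ht; rw [sdiff_self] at ht; exact absurd ht (notMem_empty t)) hPQ hYQ hsub ht
  have key : ∀ A, A ⊆ N → ((Q' A ∧ ¬ P' A) ↔ ¬ Up P A) := by
    intro A hA
    have h1 : Q' A := mono_up m1 (m3 ∅ h0) (empty_subset _) hA
    constructor
    · rintro ⟨_, h3⟩ ⟨B, hB, hBA⟩
      exact h3 (mono_up m2 (m4 B hB) hBA hA)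
    · intro h3
      exact ⟨h1, fun h4 => h3 (m5 A h4)⟩
  have e1 : edges N (fun A => ¬ Up P A) = edges N (fun A => Q' A ∧ ¬ P' A) := by
    unfold edges
    refine sum_congr rfl fun E hE => sum_congr rfl fun k hk => ?_
    have hE' := mem_powerset.1 hE
    congr 1
    beta_reduce
    rw [key E hE', key (insert k E) (insert_subset hk hE')]
  have e2 : cnt N (fun A => ¬ Up P A) = cnt N (fun A => Q' A ∧ ¬ P' A) := by
    unfold cnt
    refine sum_congr rfl fun E hE => ?_
    congr 1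
    beta_reduce
    rw [key E (mem_powerset.1 hE)]
  have hb := base_up (Q := Q') (P := P') m1 m2
  rw [e1, e2]
  exact Nat.le_of_mul_le_mul_left (hb.trans m6) (by positivity)

/-- `2 ∑ L ≤ 2 ^ |S| U` -/
theorem L_sum_le {S : Finset α} {K : Finset (Finset α)} :
    2 * ∑ w ∈ S, L (S.erase w) (fun A => A ∈ K) (fun A => insert w A ∈ K) ≤
      2 ^ S.card * U S K := by
  have h2 : ∀ w ∈ S, ∑ X ∈ S.powerset, ∑ k ∈ S.erase w, ∑ W ∈ S.powerset, ind (T K X k w W) =
      ∑ X ∈ S.powerset, ∑ k ∈ S, ∑ W ∈ S.powerset,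
        (if k ∈ S.erase w then ind (T K X k w W) else 0) := by
    intro w hw
    refine sum_congr rfl fun X _ => ?_
    have h3 : ∀ k, ∑ W ∈ S.powerset, (if k ∈ S.erase w then ind (T K X k w W) else 0) =
        if k ∈ S.erase w then ∑ W ∈ S.powerset, ind (T K X k w W) else 0 := by
      intro k; split_ifs <;> simp
    simp_rw [h3]
    rw [← sum_filter]
    congr 1
    ext k
    simp only [mem_filter, mem_erase]
    tauto
  calc 2 * ∑ w ∈ S, L (S.erase w) (fun A => A ∈ K) (fun A => insert w A ∈ K)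
      ≤ 2 * ∑ w ∈ S, ∑ X ∈ S.powerset, ∑ k ∈ S.erase w, ∑ W ∈ S.powerset,
        ind (T K X k w W) := Nat.mul_le_mul_left 2 (sum_le_sum fun w hw => L_le hw)
    _ = 2 * ∑ w ∈ S, ∑ X ∈ S.powerset, ∑ k ∈ S, ∑ W ∈ S.powerset,
        (if k ∈ S.erase w then ind (T K X k w W) else 0) := by rw [sum_congr rfl h2]
    _ = ∑ X ∈ S.powerset, ∑ k ∈ S, 2 * ∑ w ∈ S, ∑ W ∈ S.powerset,
        (if k ∈ S.erase w then ind (T K X k w W) else 0) := by
        rw [sum_comm, mul_sum]
        refine sum_congr rfl fun X _ => ?_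
        rw [sum_comm, mul_sum]
    _ ≤ ∑ X ∈ S.powerset, ∑ k ∈ S, 2 ^ S.card * ind (k ∉ X ∧ X ∉ K ∧ insert k X ∈ K) := by
        refine sum_le_sum fun X hX => sum_le_sum fun k _ => ?_
        exact T_sum X (mem_powerset.1 hX) k
    _ = 2 ^ S.card * U S K := by
        unfold U
        simp_rw [← mul_sum]

end Pool.Agent.K35c.PD
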