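import Pool.Agent.K35c.PD.Local

set_option autoImplicit false

/-!
# The theorem for families containing a third of the subsets
-/

namespace Pool.Agent.K35c.PD

open Finset
open Pool.Agent.N188.FC
open scoped Classical

variable {α : Type*} [DecidableEq α]

theorem two_pow_mod (k : ℕ) : 2 ^ k % 3 = if k % 2 = 0 then 1 else 2 := by
  induction k with
  | zero => rfl
  | succ k ihk =>
    rw [pow_succ, Nat.mul_mod, ihk]
    by_cases hk : k % 2 = 0
    · rw [if_pos hk, if_neg (by omega)]
    · rw [if_neg hk, if_pos (by omega)]

/-- Removing the elements of small degree. -/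
theorem local_density {F : Finset (Finset α)} (hF : ∀ A ∈ F, ∀ B ∈ F, A ∪ B ∈ F) (h0 : ∅ ∈ F)
    (n : ℕ) : ∀ S : Finset α, S.card = n + 1 →
    2 ^ S.card + 2 ≤ 3 * (F.filter (fun A => A ⊆ S ∧ A.Nonempty)).card + 3 * S.card / 2 →
    (∀ x ∈ S, 2 * (F.filter (fun A => x ∈ A)).card ≤ F.card) →
    ∃ P ⊆ S, P.Nonempty ∧ P.card ≤ 2 ∧ ∀ A ∈ F, A ∪ P ∈ F ∧ A \ P ∈ F := by
  induction n with
  | zero =>
    intro S hS hd hfreq
    rw [hS] at hd
    obtain ⟨w, rfl⟩ := card_eq_one.1 hS
    have h0 : 0 < (F.filter (fun A => A ⊆ {w} ∧ A.Nonempty)).card := by omega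
    obtain ⟨B, hB⟩ := card_pos.1 h0
    rw [mem_filter] at hB
    have hBw : B = {w} := (subset_singleton_iff.1 hB.2.1).resolve_left
      (nonempty_iff_ne_empty.1 hB.2.2)
    have hwF : {w} ∈ F := hBw ▸ hB.1
    exact ⟨{w}, Subset.rfl, singleton_nonempty w, by simp,
      free_of_singleton hF hwF (hfreq w (mem_singleton_self w))⟩
  | succ n ih =>
    intro S hS hd hfreq
    by_cases hall : ∀ w ∈ S, 2 ^ S.card ≤ 6 * (F.filter (fun A => w ∈ A ∧ A ⊆ S)).card
    · exact local_deg hF h0 (card_pos.1 (by omega)) hall hfreq
    · push Not at hall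
      obtain ⟨w, hw, hlt⟩ := hall
      have hce : (S.erase w).card = n + 1 := by rw [card_erase_of_mem hw]; omega
      have hp : 2 ^ S.card = 2 * 2 ^ (S.erase w).card := by rw [hce, hS, pow_succ]; ring
      have hmod := two_pow_mod (S.erase w).card
      have hsc : (F.filter (fun A => w ∈ A ∧ A ⊆ S)).card +
          (F.filter (fun A => A ⊆ S.erase w ∧ A.Nonempty)).card =
          (F.filter (fun A => A ⊆ S ∧ A.Nonempty)).card := by
        rw [← card_filter_add_card_filter_not (s := F.filter (fun A => A ⊆ S ∧ A.Nonempty))
          (fun A => w ∈ A), filter_filter, filter_filter]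
        congr 1
        · congr 1
          refine filter_congr fun A _ => ?_
          constructor
          · rintro ⟨h1, h2⟩; exact ⟨⟨h2, ⟨w, h1⟩⟩, h1⟩
          · rintro ⟨⟨h1, _⟩, h2⟩; exact ⟨h2, h1⟩
        · congr 1
          refine filter_congr fun A _ => ?_
          rw [subset_erase]
          tauto
      rw [hce] at hmod
      obtain ⟨P, hPS, h1, h2, h3⟩ := ih (S.erase w) hce (by
          rw [hce] at hp ⊢
          rw [hp] at hlt hd
          rw [hS] at hd
          split_ifs at hmod with h2 <;> omega)
        (fun x hx => hfreq x (mem_of_mem_erase hx))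
      exact ⟨P, hPS.trans (erase_subset _ _), h1, h2, h3⟩

/-- **The local theorem.** -/
theorem inside {F : Finset (Finset α)} (hF : ∀ A ∈ F, ∀ B ∈ F, A ∪ B ∈ F) (S : Finset α)
    (hS : S.Nonempty)
    (hd : 2 ^ S.card + 2 ≤ 3 * (F.filter (fun A => A ⊆ S ∧ A.Nonempty)).card + 3 * S.card / 2) :
    (∃ x ∈ S, F.card < 2 * (F.filter (fun A => x ∈ A)).card) ∨
      ∃ P ⊆ S, P.Nonempty ∧ P.card ≤ 2 ∧ ∀ A ∈ F, A ∪ P ∈ F ∧ A \ P ∈ F := by
  obtain ⟨n, hn⟩ : ∃ n, S.card = n + 1 := ⟨S.card - 1, by have := hS.card_pos; omega⟩
  by_cases hex : ∃ x ∈ S, F.card < 2 * (F.filter (fun A => x ∈ A)).card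
  · exact Or.inl hex
  · right
    push Not at hex
    by_cases h0 : ∅ ∈ F
    · exact local_density hF h0 n S hn hd hex
    · exfalso
      obtain ⟨x, hx, hxF⟩ := density_third (F := insert ∅ F)
        (by
          intro A hA B hB
          rcases mem_insert.1 hA with rfl | hA
          · rw [empty_union]; exact hB
          · rcases mem_insert.1 hB with rfl | hB
            · rw [union_empty]; exact mem_insert_of_mem hA
            · exact mem_insert_of_mem (hF A hA B hB)) n S
        (F.filter (fun A => A ⊆ S)) hn (fun B hB => (mem_filter.1 hB).2)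
        (by
          intro A hA B hB
          rcases mem_insert.1 hA with rfl | hA
          · rw [empty_union]; exact mem_insert_of_mem (mem_filter.1 hB).1
          · exact mem_insert_of_mem (hF A hA B (mem_filter.1 hB).1))
        (by rw [filter_filter]; exact hd)
      rw [card_insert_of_notMem h0, filter_insert, if_neg (notMem_empty x)] at hxF
      have := hex x hx
      omega

/-- `P` splits off from `F`. -/
def Sp (F : Finset (Finset α)) (P : Finset α) : Prop := ∀ A ∈ F, A ∪ P ∈ F ∧ A \ P ∈ F

theorem Sp.union {F : Finset (Finset α)} {P Q : Finset α} (hP : Sp F P) (hQ : Sp F Q) :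
    Sp F (P ∪ Q) := by
  intro A hA
  refine ⟨?_, ?_⟩
  · rw [← union_assoc]; exact (hQ _ (hP A hA).1).1
  · have h : A \ (P ∪ Q) = (A \ P) \ Q := by
      ext x; simp only [mem_sdiff, mem_union]; tauto
    rw [h]; exact (hQ _ (hP A hA).2).2

theorem sp_sup {F : Finset (Finset α)} (Cc : Finset (Finset α)) (h : ∀ P ∈ Cc, Sp F P) :
    Sp F (Cc.sup id) := by
  induction Cc using Finset.induction_on with
  | empty =>
    intro A hA
    simp [hA]
  | insert P Cc _ ih =>
    rw [sup_insert]
    exact (h P (mem_insert_self _ _)).union (ih (fun Q hQ => h Q (mem_insert_of_mem hQ)))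

/-- The partition of the universe into sets which split off. -/
theorem exists_partition {F : Finset (Finset α)} (hF : ∀ A ∈ F, ∀ B ∈ F, A ∪ B ∈ F)
    (h0 : ∅ ∈ F) (hd : 2 ^ (F.sup id).card ≤ 3 * F.card)
    (hfreq : ∀ x ∈ F.sup id, 2 * (F.filter (fun A => x ∈ A)).card ≤ F.card) (n : ℕ) :
    ∀ R ⊆ F.sup id, R.card = n → ∀ Cc : Finset (Finset α),
      (∀ P ∈ Cc, P.card ≤ 2 ∧ Sp F P) → (∀ P ∈ Cc, ∀ Q ∈ Cc, P ≠ Q → Disjoint P Q) →
      Cc.sup id = F.sup id \ R →
      ∃ Cc : Finset (Finset α), (∀ P ∈ Cc, P.card ≤ 2 ∧ Sp F P) ∧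
        (∀ P ∈ Cc, ∀ Q ∈ Cc, P ≠ Q → Disjoint P Q) ∧ Cc.sup id = F.sup id := by
  induction n using Nat.strong_induction_on with
  | _ n ih =>
    intro R hR hRn Cc h1 h2 h3
    rcases R.eq_empty_or_nonempty with rfl | hRne
    · rw [sdiff_empty] at h3
      exact ⟨Cc, h1, h2, h3⟩
    · -- the members inside `R`
      have hZ : Sp F (F.sup id \ R) := h3 ▸ sp_sup Cc (fun P hP => (h1 P hP).2)
      have hUsub : ∀ A ∈ F, A ⊆ F.sup id := fun A hA => le_sup (f := id) hA
      have hcard : F.card ≤ (F.filter (fun A => A ⊆ R)).card * 2 ^ (F.sup id \ R).card := by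
        rw [← card_powerset, ← card_product]
        refine card_le_card_of_injOn
          (fun A => (A \ (F.sup id \ R), A ∩ (F.sup id \ R))) ?_ ?_
        · intro A hA
          simp only [coe_product, coe_filter, coe_powerset, Set.mem_prod, Set.mem_ofPred_eq,
            Set.mem_preimage, Set.mem_powerset_iff, coe_subset]
          refine ⟨⟨(hZ A hA).2, ?_⟩, inter_subset_right⟩
          intro x hx
          rw [mem_sdiff, mem_sdiff, not_and_not_right] at hx
          exact hx.2 (hUsub A hA hx.1)
        · intro A _ B _ h
          simp only [Prod.mk.injEq] at h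
          rw [← sdiff_union_inter A (F.sup id \ R), h.1, h.2, sdiff_union_inter]
      have hg : (F.filter (fun A => A ⊆ R)).card =
          (F.filter (fun A => A ⊆ R ∧ A.Nonempty)).card + 1 := by
        rw [← card_filter_add_card_filter_not (s := F.filter (fun A => A ⊆ R))
          (fun A => A.Nonempty), filter_filter, filter_filter]
        congr 1
        rw [card_eq_one]
        refine ⟨∅, ?_⟩
        ext A
        rw [mem_filter, mem_singleton, not_nonempty_iff_eq_empty]
        constructor
        · exact fun h => h.2.2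
        · rintro rfl
          exact ⟨h0, empty_subset _, rfl⟩
      have hpw : 2 ^ (F.sup id).card = 2 ^ R.card * 2 ^ (F.sup id \ R).card := by
        rw [← pow_add, card_sdiff_of_subset hR]
        congr 1
        have := card_le_card hR
        omega
      have hdR : 2 ^ R.card ≤ 3 * (F.filter (fun A => A ⊆ R)).card := by
        have h5 : 2 ^ R.card * 2 ^ (F.sup id \ R).card ≤
            (3 * (F.filter (fun A => A ⊆ R)).card) * 2 ^ (F.sup id \ R).card := by
          rw [← hpw, mul_assoc]
          exact hd.trans (Nat.mul_le_mul_left 3 hcard)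
        exact Nat.le_of_mul_le_mul_right h5 (by positivity)
      have hRpos := hRne.card_pos
      have hcond : 2 ^ R.card + 2 ≤
          3 * (F.filter (fun A => A ⊆ R ∧ A.Nonempty)).card + 3 * R.card / 2 := by
        rw [hg] at hdR
        have hmod := two_pow_mod R.card
        rcases Nat.lt_or_ge R.card 2 with hlt | hge
        · have hR1 : R.card = 1 := by omega
          obtain ⟨r, hr⟩ := card_eq_one.1 hR1
          have hrU : r ∈ F.sup id := hR (by rw [hr]; exact mem_singleton_self r)
          rw [mem_sup] at hrU
          obtain ⟨A, hA, hrA⟩ := hrU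
          simp only [id] at hrA
          have h6 : A \ (F.sup id \ R) ∈ F.filter (fun A => A ⊆ R ∧ A.Nonempty) := by
            rw [mem_filter]
            refine ⟨(hZ A hA).2, ?_, r, ?_⟩
            · intro x hx
              rw [mem_sdiff, mem_sdiff, not_and_not_right] at hx
              exact hx.2 (hUsub A hA hx.1)
            · rw [mem_sdiff, mem_sdiff, not_and_not_right]
              exact ⟨hrA, fun _ => by rw [hr]; exact mem_singleton_self r⟩
          have h7 := card_pos.2 ⟨_, h6⟩
          rw [hR1]
          omega
        · split_ifs at hmod with hpar <;> omega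
      rcases inside hF R hRne hcond with ⟨x, hx, hxF⟩ | ⟨P, hPR, hPne, hP2, hPsp⟩
      · have := hfreq x (hR hx)
        omega
      · refine ih (R \ P).card ?_ (R \ P) (sdiff_subset.trans hR) rfl (insert P Cc) ?_ ?_ ?_
        · rw [← hRn, card_sdiff_of_subset hPR]
          have := hPne.card_pos
          omega
        · intro Q hQ
          rcases mem_insert.1 hQ with rfl | hQ
          · exact ⟨hP2, hPsp⟩
          · exact h1 Q hQ
        · have hdis : ∀ Q ∈ Cc, Disjoint P Q := by
            intro Q hQ
            have h8 : Q ⊆ F.sup id \ R := h3 ▸ le_sup (f := id) hQ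
            exact (disjoint_sdiff (s := R) (t := F.sup id)).mono hPR h8
          intro Q hQ Q' hQ' hne
          rcases mem_insert.1 hQ with g | g <;> rcases mem_insert.1 hQ' with g' | g'
          · exact absurd (g.trans g'.symm) hne
          · rw [g]; exact hdis Q' g'
          · rw [g']; exact (hdis Q g).symm
          · exact h2 Q g Q' g' hne
        · rw [sup_insert, h3]
          ext x
          simp only [id, sup_eq_union, mem_union, mem_sdiff]
          constructor
          · rintro (h | h)
            · exact ⟨hR (hPR h), fun h' => h'.2 h⟩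
            · exact ⟨h.1, fun h' => h.2 h'.1⟩
          · rintro ⟨h, h'⟩
            by_cases hxP : x ∈ P
            · exact Or.inl hxP
            · exact Or.inr ⟨h, fun hxR => h' ⟨hxR, hxP⟩⟩

/-- the classification of the families without an element in more than half of the members -/
theorem classify {F : Finset (Finset α)} (hF : ∀ A ∈ F, ∀ B ∈ F, A ∪ B ∈ F)
    (hU : (F.sup id).Nonempty) (hd : 2 ^ (F.sup id).card ≤ 3 * F.card) :
    (∃ x ∈ F.sup id, F.card < 2 * (F.filter (fun A => x ∈ A)).card) ∨
      F = (F.sup id).powerset ∨ ∃ x ∈ F.sup id, ∃ y ∈ F.sup id, x ≠ y ∧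
        F = (F.sup id).powerset.filter (fun A => x ∈ A ↔ y ∈ A) := by
  by_cases hex : ∃ x ∈ F.sup id, F.card < 2 * (F.filter (fun A => x ∈ A)).card
  · exact Or.inl hex
  right
  push Not at hex
  have hUsub : ∀ A ∈ F, A ⊆ F.sup id := fun A hA => le_sup (f := id) hA
  have hUpos := hU.card_pos
  have hppos : 0 < 2 ^ (F.sup id).card := by positivity
  -- the empty set is a member
  have h0 : ∅ ∈ F := by
    by_contra h0
    have hfil : F.filter (fun A => A ⊆ F.sup id ∧ A.Nonempty) = F := by
      rw [filter_eq_self]
      intro A hA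
      refine ⟨hUsub A hA, nonempty_iff_ne_empty.2 ?_⟩
      rintro rfl
      exact h0 hA
    obtain ⟨n, hn⟩ : ∃ n, (F.sup id).card = n + 1 := ⟨(F.sup id).card - 1, by omega⟩
    obtain ⟨x, hx, hxF⟩ := density_third (F := insert ∅ F)
      (by
        intro A hA B hB
        rcases mem_insert.1 hA with rfl | hA
        · rw [empty_union]; exact hB
        · rcases mem_insert.1 hB with rfl | hB
          · rw [union_empty]; exact mem_insert_of_mem hA
          · exact mem_insert_of_mem (hF A hA B hB)) n (F.sup id)
      (F.filter (fun A => A ⊆ F.sup id)) hn (fun B hB => (mem_filter.1 hB).2)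
      (by
        intro A hA B hB
        rcases mem_insert.1 hA with rfl | hA
        · rw [empty_union]; exact mem_insert_of_mem (mem_filter.1 hB).1
        · exact mem_insert_of_mem (hF A hA B (mem_filter.1 hB).1))
      (by
        rw [filter_filter, hfil]
        rcases Nat.lt_or_ge (F.sup id).card 2 with hlt | hge
        · have h1 : (F.sup id).card = 1 := by omega
          rw [h1] at hd ⊢
          omega
        · omega)
    rw [card_insert_of_notMem h0, filter_insert, if_neg (notMem_empty x)] at hxF
    have := hex x hx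
    omega
  obtain ⟨Cc, h1, h2, h3⟩ := exists_partition hF h0 hd hex _ (F.sup id) Subset.rfl rfl ∅
    (by simp) (by simp) (by simp)
  -- the traces on a block are members
  have htrace : ∀ P ∈ Cc, ∀ A ∈ F, A ∩ P ∈ F := by
    intro P hP A hA
    have h4 : Sp F ((Cc.erase P).sup id) :=
      sp_sup _ (fun Q hQ => (h1 Q (mem_of_mem_erase hQ)).2)
    have h5 : A ∩ P = A \ (Cc.erase P).sup id := by
      ext x
      rw [mem_inter, mem_sdiff]
      constructor
      · rintro ⟨hxA, hxP⟩
        refine ⟨hxA, ?_⟩
        intro h
        rw [mem_sup] at h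
        obtain ⟨Q, hQ, hxQ⟩ := h
        rw [mem_erase] at hQ
        exact disjoint_left.1 (h2 P hP Q hQ.2 (Ne.symm hQ.1)) hxP hxQ
      · rintro ⟨hxA, h⟩
        refine ⟨hxA, ?_⟩
        have h6 : x ∈ Cc.sup id := h3.symm ▸ hUsub A hA hxA
        rw [mem_sup] at h6
        obtain ⟨Q, hQ, hxQ⟩ := h6
        by_cases hQP : Q = P
        · rw [← hQP]; exact hxQ
        · exfalso
          apply h
          rw [mem_sup]
          exact ⟨Q, mem_erase.2 ⟨hQP, hQ⟩, hxQ⟩
    rw [h5]
    exact (h4 A hA).2
  -- every element is free or has a twin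
  have hfree : ∀ x ∈ F.sup id, {x} ∈ F ∨ ∃ y ∈ F.sup id, y ≠ x ∧ ({x, y} : Finset α) ∈ F ∧
      {x, y} ∈ Cc ∧ ∀ A ∈ F, x ∈ A ↔ y ∈ A := by
    intro x hx
    have hx' := hx
    rw [← h3, mem_sup] at hx'
    obtain ⟨P, hP, hxP⟩ := hx'
    simp only [id] at hxP
    have hPF : P ∈ F := by
      have := (h1 P hP).2 ∅ h0
      rw [empty_union] at this
      exact this.1
    by_cases hPx : P = {x}
    · left; rw [← hPx]; exact hPF
    · obtain ⟨y, hyP, hyx⟩ : ∃ y ∈ P, y ≠ x := by
        by_contra hcon
        push Not at hcon
        exact hPx (eq_singleton_iff_unique_mem.2 ⟨hxP, hcon⟩)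
      have hPxy : P = {x, y} := by
        symm
        apply eq_of_subset_of_card_le
        · intro z hz
          rw [mem_insert, mem_singleton] at hz
          rcases hz with rfl | rfl <;> assumption
        · rw [card_pair hyx.symm]; exact (h1 P hP).1
      have hyU : y ∈ F.sup id := hUsub P hPF hyP
      by_cases htw : ∀ A ∈ F, x ∈ A ↔ y ∈ A
      · right; exact ⟨y, hyU, hyx, hPxy ▸ hPF, hPxy ▸ hP, htw⟩
      · left
        push Not at htw
        obtain ⟨A, hA, hxy⟩ := htw
        have hAP := htrace P hP A hA
        rcases hxy with ⟨hxA, hyA⟩ | ⟨hxA, hyA⟩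
        · have e : A ∩ P = {x} := by
            rw [hPxy]
            ext z
            simp only [mem_inter, mem_insert, mem_singleton]
            constructor
            · rintro ⟨h, rfl | rfl⟩
              · rfl
              · exact absurd h hyA
            · rintro rfl
              exact ⟨hxA, Or.inl rfl⟩
          rw [← e]; exact hAP
        · have e : A ∩ P = {y} := by
            rw [hPxy]
            ext z
            simp only [mem_inter, mem_insert, mem_singleton]
            constructor
            · rintro ⟨h, rfl | rfl⟩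
              · exact absurd h hxA
              · rfl
            · rintro rfl
              exact ⟨hyA, Or.inr rfl⟩
          rw [e] at hAP
          have hysp := free_of_singleton hF hAP (hex y hyU)
          have := (hysp P hPF).2
          have e2 : P \ {y} = {x} := by
            rw [hPxy]
            ext z
            simp only [mem_sdiff, mem_insert, mem_singleton]
            constructor
            · rintro ⟨rfl | rfl, h⟩
              · rfl
              · exact absurd rfl h
            · rintro rfl
              exact ⟨Or.inl rfl, fun h => hyx h.symm⟩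
          rwa [e2] at this
  -- unions of members
  have hun : ∀ B : Finset α, (∀ x ∈ B, ∃ C ∈ F, x ∈ C ∧ C ⊆ B) → B ∈ F := by
    intro B hB
    have key : ∀ X : Finset α, X ⊆ B → ∃ C ∈ F, X ⊆ C ∧ C ⊆ B := by
      intro X
      induction X using Finset.induction_on with
      | empty => intro _; exact ⟨∅, h0, Subset.rfl, empty_subset _⟩
      | insert x X _ ih =>
        intro hX
        obtain ⟨C, hC, hXC, hCB⟩ := ih ((subset_insert _ _).trans hX)
        obtain ⟨C', hC', hxC', hCB'⟩ := hB x (hX (mem_insert_self _ _))
        exact ⟨C ∪ C', hF C hC C' hC', insert_subset (mem_union_right _ hxC')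
          (hXC.trans subset_union_left), union_subset hCB hCB'⟩
    obtain ⟨C, hC, h4, h5⟩ := key B Subset.rfl
    rwa [Subset.antisymm h4 h5]
  by_cases hall : ∀ x ∈ F.sup id, {x} ∈ F
  · left
    apply Subset.antisymm
    · intro A hA; exact mem_powerset.2 (hUsub A hA)
    · intro B hB
      rw [mem_powerset] at hB
      exact hun B (fun x hx => ⟨{x}, hall x (hB hx), mem_singleton_self x,
        singleton_subset_iff.2 hx⟩)
  · right
    push Not at hall
    obtain ⟨x, hx, hxF⟩ := hall
    obtain ⟨y, hy, hyx, hxyF, hxyC, htw⟩ := (hfree x hx).resolve_left hxF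
    refine ⟨x, hx, y, hy, hyx.symm, ?_⟩
    have hother : ∀ z ∈ F.sup id, z ≠ x → z ≠ y → {z} ∈ F := by
      intro z hz hzx hzy
      by_contra hzF
      obtain ⟨t, ht, htz, hztF, hztC, htw'⟩ := (hfree z hz).resolve_left hzF
      have hdisj : Disjoint ({x, y} : Finset α) {z, t} := by
        refine h2 _ hxyC _ hztC ?_
        intro h
        have : z ∈ ({x, y} : Finset α) := by rw [h]; exact mem_insert_self _ _
        rw [mem_insert, mem_singleton] at this
        exact this.elim hzx hzy
      have hyt : y ≠ t := by
        rintro rfl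
        exact disjoint_left.1 hdisj (mem_insert_of_mem (mem_singleton_self y))
          (mem_insert_of_mem (mem_singleton_self y))
      have hxt : x ≠ t := by
        rintro rfl
        exact disjoint_left.1 hdisj (mem_insert_self _ _)
          (mem_insert_of_mem (mem_singleton_self x))
      have h4 : F.card ≤ (F.sup id \ {y, t}).powerset.card := by
        refine card_le_card_of_injOn (fun A => A \ {y, t}) ?_ ?_
        · intro A hA
          simp only [coe_powerset, Set.mem_preimage, Set.mem_powerset_iff, coe_subset]
          exact sdiff_subset_sdiff (hUsub A hA) Subset.rfl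
        · intro A hA B hB hAB
          have hAB : A \ {y, t} = B \ {y, t} := hAB
          have e : ∀ u, u ≠ y → u ≠ t → (u ∈ A ↔ u ∈ B) := by
            intro u huy hut
            have h5 : ∀ C : Finset α, u ∈ C ↔ u ∈ C \ {y, t} := by
              intro C
              rw [mem_sdiff, mem_insert, mem_singleton]
              constructor
              · intro h; exact ⟨h, fun h' => h'.elim huy hut⟩
              · exact fun h => h.1
            rw [h5 A, h5 B, hAB]
          ext u
          by_cases huy : u = y
          · rw [huy, ← htw A hA, ← htw B hB]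
            exact e x hyx.symm hxt
          · by_cases hut : u = t
            · rw [hut, ← htw' A hA, ← htw' B hB]
              exact e z hzy htz.symm
            · exact e u huy hut
      have hsub2 : ({y, t} : Finset α) ⊆ F.sup id := by
        intro u hu
        rw [mem_insert, mem_singleton] at hu
        rcases hu with rfl | rfl <;> assumption
      rw [card_powerset, card_sdiff_of_subset hsub2, card_pair hyt] at h4
      have h5 : 2 ≤ (F.sup id).card := by
        rw [← card_pair hyt]; exact card_le_card hsub2
      obtain ⟨k, hk⟩ : ∃ k, (F.sup id).card = k + 2 := ⟨(F.sup id).card - 2, by omega⟩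
      rw [hk] at h4 hd
      have h6 : k + 2 - 2 = k := by omega
      rw [h6] at h4
      have h7 : 2 ^ (k + 2) = 4 * 2 ^ k := by ring
      have h8 : 0 < 2 ^ k := by positivity
      omega
    apply Subset.antisymm
    · intro A hA
      rw [mem_filter, mem_powerset]
      exact ⟨hUsub A hA, htw A hA⟩
    · intro B hB
      rw [mem_filter, mem_powerset] at hB
      refine hun B (fun u hu => ?_)
      by_cases hux : u = x
      · subst hux
        refine ⟨{u, y}, hxyF, mem_insert_self _ _, ?_⟩
        intro v hv
        rw [mem_insert, mem_singleton] at hv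
        rcases hv with rfl | rfl
        · exact hu
        · exact hB.2.1 hu
      · by_cases huy : u = y
        · subst huy
          refine ⟨{x, u}, hxyF, mem_insert_of_mem (mem_singleton_self _), ?_⟩
          intro v hv
          rw [mem_insert, mem_singleton] at hv
          rcases hv with rfl | rfl
          · exact hB.2.2 hu
          · exact hu
        · exact ⟨{u}, hother u (hB.1 hu) hux huy, mem_singleton_self u,
            singleton_subset_iff.2 hu⟩

/-- **Poonen's inequality for families containing a third of the subsets.** -/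
theorem poonen_third {F : Finset (Finset α)} (hF : ∀ A ∈ F, ∀ B ∈ F, A ∪ B ∈ F)
    (hsep : ∀ x ∈ F.sup id, ∀ y ∈ F.sup id, x ≠ y →
      ∃ A ∈ F, (x ∈ A ∧ y ∉ A) ∨ (y ∈ A ∧ x ∉ A))
    (hne : F ≠ (F.sup id).powerset) (hd : 2 ^ (F.sup id).card ≤ 3 * F.card) :
    ∃ x ∈ F.sup id, F.card < 2 * (F.filter (fun A => x ∈ A)).card := by
  have hU : (F.sup id).Nonempty := by
    rw [nonempty_iff_ne_empty]
    intro h
    rw [h] at hd hne
    have h1 : F.Nonempty := by
      rw [← card_pos]
      have : 1 ≤ 3 * F.card := by simpa using hd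
      omega
    obtain ⟨A, hA⟩ := h1
    apply hne
    have h2 : ∀ B ∈ F, B = ∅ := by
      intro B hB
      have : B ⊆ F.sup id := le_sup (f := id) hB
      rw [h] at this
      exact subset_empty.1 this
    rw [powerset_empty]
    exact eq_singleton_iff_unique_mem.2 ⟨h2 A hA ▸ hA, h2⟩
  rcases classify hF hU hd with h | h | ⟨x, hx, y, hy, hxy, h⟩
  · exact h
  · exact absurd h hne
  · exfalso
    obtain ⟨A, hA, hAxy⟩ := hsep x hx y hy hxy
    rw [h, mem_filter] at hA
    tauto

end Pool.Agent.K35c.PD
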